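import Pool.Agent.DTR.WLK
import Pool.Agent.DTR.BAT
import Pool.Agent.DTR.HG
import Pool.Agent.DTR.MRG
import Pool.Agent.DTR.LIF
import Pool.Agent.DTR.SWP
import Pool.Agent.DTR.GRD
import Pool.Agent.DTR.CPL
import Pool.Agent.DTR.SWE
import Pool.Agent.DTR.COR
import Pool.Agent.DTR.HYP
import Pool.Agent.DTR.DIC
import Pool.Agent.DTR.DIS
import Pool.Agent.DTR.ARB
import Pool.Agent.DTR.MAN

/-!
# Quadratic redicolouring for arboreal decompositions whose guards lie above

helper11 (with helpers 10, 12, 14, 16, 18, 20, 42, 44, 45, 47, 58, 72, 81, 85, 88, 96), problem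
MP_25e1c1_co.
-/

set_option autoImplicit false

namespace Pool.Agent.Results.MP_25e1c1_co.GuardsAbove

variable {V : Type}

/-- the arcs of the subdigraph of `D` induced by `S` -/
def Induced (D : V → V → Prop) (S : Set V) (a b : V) : Prop := a ∈ S ∧ b ∈ S ∧ D a b

/-- `S` induces an acyclic subdigraph of `D`: there is no closed directed walk of positive length
inside `S` -/
def InducesAcyclic (D : V → V → Prop) (S : Set V) : Prop :=
  ∀ v, ¬ Relation.TransGen (Induced D S) v v

/-- a `k`-dicolouring: every colour class induces an acyclic subdigraph -/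
def IsDicolouring (D : V → V → Prop) {k : ℕ} (α : V → Fin k) : Prop :=
  ∀ i, InducesAcyclic D {v | α v = i}

/-- the `k`-dicolouring graph: two dicolourings are adjacent when they differ in the colour of
exactly one vertex -/
def dicolouringGraph (D : V → V → Prop) (k : ℕ) :
    SimpleGraph {α : V → Fin k // IsDicolouring D α} where
  Adj α β := ∃ v, α.1 v ≠ β.1 v ∧ ∀ u, u ≠ v → α.1 u = β.1 u
  symm := ⟨fun _ _ ⟨v, h, h'⟩ => ⟨v, h.symm, fun u hu => (h' u hu).symm⟩⟩
  loopless := ⟨fun _ ⟨_, h, _⟩ => h rfl⟩

/-- `S` is `Z`-normal in `D`: `S` is disjoint from `Z`, and no directed walk in `D - Z` starts in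
`S`, ends in `S` and visits a vertex `c` outside `S ∪ Z` -/
def IsNormal (D : V → V → Prop) (Z S : Set V) : Prop :=
  (∀ v ∈ S, v ∉ Z) ∧ ∀ a ∈ S, ∀ b ∈ S, ∀ c, c ∉ S → c ∉ Z →
    ¬ (Relation.ReflTransGen (Induced D {u | u ∉ Z}) a c ∧
      Relation.ReflTransGen (Induced D {u | u ∉ Z}) c b)

/-- An arboreal decomposition of `D` with node set `T`. The out-arborescence is given by its root
and the parent `par s` of every node `s` other than the root (iterating `par` leads to the root);
its arcs are the pairs `(par s, s)` with `s ≠ root`. The bag `W_t` is the set of the vertices `v`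
with `home v = t`; all bags are nonempty. The guard of the arc `(par s, s)` is `guard s`, and the
union of the bags of the nodes reachable from `s` is normal with respect to it. -/
structure ArborealDecomposition (D : V → V → Prop) (T : Type) where
  root : T
  par : T → T
  par_root : par root = root
  reach : ∀ t, ∃ i : ℕ, par^[i] t = root
  home : V → T
  nonempty : ∀ t, ∃ v, home v = t
  guard : T → Finset V
  normal : ∀ s, s ≠ root → IsNormal D (guard s) {v | ∃ i : ℕ, par^[i] (home v) = s}

/-- **Theorem.** Let the finite digraph `D` have an arboreal decomposition such that the guard of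
every arc `(par s, s)` is contained in the union of the bags of the proper ancestors of `s`, and the
bag of every node together with the guard of the arc entering it has at most `w + 1` elements. If
`k ≥ w + 2` then the `k`-dicolouring graph of `D` is connected and has diameter at most `22 n ^ 2`. -/
theorem result {V T : Type} [Fintype V] (D : V → V → Prop) (hD : ∀ v, ¬ D v v)
    (A : ArborealDecomposition D T) (w k : ℕ)
    (habove : ∀ s, s ≠ A.root → ∀ x ∈ A.guard s, A.home x ≠ s ∧ ∃ i : ℕ, A.par^[i] s = A.home x)
    (hwidth : ∀ s, Set.ncard ({v | A.home v = s} ∪ {v | s ≠ A.root ∧ v ∈ A.guard s}) ≤ w + 1)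
    (hk : w + 2 ≤ k) :
    (dicolouringGraph D k).Connected ∧
      ∀ α β, (dicolouringGraph D k).dist α β ≤ 22 * Fintype.card V ^ 2 := by
  classical
  have h := DTR.dtr_man
    (DTR.dtr_hyp DTR.dtr_wlk DTR.dtr_hg
      (DTR.dtr_swe DTR.dtr_wlk (DTR.dtr_swp DTR.dtr_wlk DTR.dtr_bat))
      (DTR.dtr_cor DTR.dtr_wlk DTR.dtr_hg DTR.dtr_mrg DTR.dtr_lif
        (DTR.dtr_swp DTR.dtr_wlk DTR.dtr_bat) DTR.dtr_grd
        (DTR.dtr_cpl DTR.dtr_wlk DTR.dtr_bat)
        (DTR.dtr_swe DTR.dtr_wlk (DTR.dtr_swp DTR.dtr_wlk DTR.dtr_bat))))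
    DTR.dtr_dic DTR.dtr_dis DTR.dtr_arb DTR.dtr_hg DTR.dtr_grd V T D hD
    { root := A.root
      par := A.par
      proot := A.par_root
      reach := A.reach
      h := A.home
      surj := A.nonempty
      X := A.guard
      normal := fun s hs => A.normal s hs } w k hk
    (fun s hs x hx => habove s hs x hx)
    (fun s => by
      refine le_trans (le_of_eq ?_) (hwidth s)
      rw [← Set.ncard_coe_finset]
      congr 1
      ext v
      by_cases hs : s = A.root
      · simp [hs]
      · simp [hs])
  exact h

end Pool.Agent.Results.MP_25e1c1_co.GuardsAbove
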