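import Pool.Agent.DTW.Spare

/-!
MP_25e1c1_co. Dicolouring reconfiguration and directed treewidth: for every `k ≥ dtw D + 2` the
`k`-dicolouring graph is connected, with diameter at most
`⌊(k - 1) / (k - dtw D - 1)⌋ n (n + 1) + 2 n`.

The definitions (dicolourings, dicolouring graph, arboreal decompositions, directed treewidth) are
in `Pool.Agent.DTW.Defs`.

Idea of the proof. Let `w = dtw D`, `s = k - w - 1` (the number of spare colours), `R` the
arborescence, `S x` the set of descendants of `x`, `G x` the guard of `S x`, at most `w` vertices.
(1) Freeing colours: every set `M` of at most `s` colours can be freed from every down-closed set of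
vertices, by recolouring only vertices of this set and moving a vertex at most once for each
ancestor: below `x` first free a set `M'` of `|M|` colours that do not occur on `x` and on `G x`, then
move the classes of `M \ M'` inside `S x` to the colours of `M' \ M`. (2) The first-fit colouring `τ`
along the arborescence has at most `w + 1` classes, they are acyclic, and the removal of the first `j`
classes lowers the guards of the remaining vertices to `w - j` elements. So (1) can be applied
`⌈(w + 1) / s⌉ = ⌊(k - 1) / s⌋` times, each time followed by the recolouring of `s` classes of `τ`; every
dicolouring is transformed into `τ`.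
-/

set_option autoImplicit false

namespace Pool.Agent.Results.MP_25e1c1_co.SpareColours

open Pool.Agent.DTW

universe u

/-- For every finite loopless digraph `D` and `k ≥ dtw D + 2` the `k`-dicolouring graph of `D` is
connected and has diameter at most `⌊(k - 1) / (k - dtw D - 1)⌋ n (n + 1) + 2 n`, where `n` is the
number of vertices. -/
theorem result {V : Type u} [Fintype V] (D : Digraph V) (hD : ∀ v, ¬ D.Adj v v) (k : ℕ)
    (hk : dtw D + 2 ≤ k) :
    (dicolouringGraph D k).Connected ∧
      (dicolouringGraph D k).ediam ≤
        (((k - 1) / (k - dtw D - 1) * (Fintype.card V * (Fintype.card V + 1)) +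
          2 * Fintype.card V : ℕ) : ℕ∞) :=
  mainS D hD k hk

end Pool.Agent.Results.MP_25e1c1_co.SpareColours
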